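import Mathlib

/-!
# The d-reflection functor preserves arbitrary products

For a topological space the specialization order is `x ≤ y ↔ x ∈ closure {y}`.
-/

set_option autoImplicit false

open Topology Set

namespace Pool.Agent.Results.MP_c8df5e_gt.ProductReflection

universe u v w

/-- A nonempty set `D` of points of a space is directed for the specialization order
(`a ≤ c` means `a ∈ closure {c}`). -/
def SDirected {X : Type u} [TopologicalSpace X] (D : Set X) : Prop :=
  D.Nonempty ∧ ∀ a ∈ D, ∀ b ∈ D, ∃ c ∈ D, a ∈ closure {c} ∧ b ∈ closure {c}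

/-- `s` is the supremum of `D` for the specialization order. -/
def IsSSup {X : Type u} [TopologicalSpace X] (D : Set X) (s : X) : Prop :=
  (∀ a ∈ D, a ∈ closure {s}) ∧ ∀ t : X, (∀ a ∈ D, a ∈ closure {t}) → s ∈ closure {t}

/-- A `d`-space (monotone convergence space): a `T₀` space in which every directed set `D` (for the
specialization order) has a supremum `s`, and every open set containing `s` meets `D`. -/
def IsDSpace (X : Type u) [TopologicalSpace X] : Prop :=
  T0Space X ∧ ∀ D : Set X, SDirected D →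
    ∃ s : X, IsSSup D s ∧ ∀ U : Set X, IsOpen U → s ∈ U → (D ∩ U).Nonempty

/-- `μ : X → Y` is a `d`-reflection of `X`: `Y` is a `d`-space, `μ` is continuous and every
continuous map from `X` to a `d`-space factors through `μ` by a unique continuous map. -/
def IsDReflection {X Y : Type u} [TopologicalSpace X] [TopologicalSpace Y] (μ : X → Y) : Prop :=
  IsDSpace Y ∧ Continuous μ ∧ ∀ (Z : Type u) [TopologicalSpace Z], IsDSpace Z →
    ∀ f : X → Z, Continuous f → ∃! g : Y → Z, Continuous g ∧ g ∘ μ = f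

/-! ## Basic facts -/

section basic

variable {X : Type u} [TopologicalSpace X]

lemma le_iff {a b : X} : a ∈ closure {b} ↔ ∀ U : Set X, IsOpen U → a ∈ U → b ∈ U := by
  rw [← specializes_iff_mem_closure, specializes_iff_forall_open]

/-- `s` is an upper bound of `D` and a limit of `D`. -/
def DLim (D : Set X) (s : X) : Prop :=
  (∀ a ∈ D, a ∈ closure {s}) ∧ ∀ U : Set X, IsOpen U → s ∈ U → (D ∩ U).Nonempty

lemma DLim.isSSup {D : Set X} {s : X} (h : DLim D s) : IsSSup D s := by
  refine ⟨h.1, fun t ht => le_iff.2 fun U hU hs => ?_⟩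
  obtain ⟨a, haD, haU⟩ := h.2 U hU hs
  exact le_iff.1 (ht a haD) U hU haU

lemma isDSpace_iff : IsDSpace X ↔ T0Space X ∧ ∀ D : Set X, SDirected D → ∃ s, DLim D s := by
  constructor
  · rintro ⟨h0, h⟩
    refine ⟨h0, fun D hD => ?_⟩
    obtain ⟨s, hs, hU⟩ := h D hD
    exact ⟨s, hs.1, hU⟩
  · rintro ⟨h0, h⟩
    refine ⟨h0, fun D hD => ?_⟩
    obtain ⟨s, hs⟩ := h D hD
    exact ⟨s, hs.isSSup, hs.2⟩

lemma DLim.unique [T0Space X] {D : Set X} {s t : X} (hs : DLim D s) (ht : DLim D t) : s = t := by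
  apply Inseparable.eq
  rw [inseparable_iff_specializes_and]
  rw [specializes_iff_mem_closure, specializes_iff_mem_closure]
  exact ⟨ht.isSSup.2 s hs.1, hs.isSSup.2 t ht.1⟩

lemma mem_iff_of_dLim {D : Set X} {s : X} (h : DLim D s) {U : Set X} (hU : IsOpen U) :
    s ∈ U ↔ (D ∩ U).Nonempty := by
  refine ⟨h.2 U hU, ?_⟩
  rintro ⟨a, haD, haU⟩
  exact le_iff.1 (h.1 a haD) U hU haU

lemma le_map {Y : Type v} [TopologicalSpace Y] {f : X → Y} (hf : Continuous f) {a b : X}
    (h : a ∈ closure {b}) : f a ∈ closure {f b} :=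
  le_iff.2 fun U hU ha => le_iff.1 h _ (hU.preimage hf) ha

lemma SDirected.image {Y : Type v} [TopologicalSpace Y] {f : X → Y} (hf : Continuous f)
    {D : Set X} (h : SDirected D) : SDirected (f '' D) := by
  refine ⟨h.1.image f, ?_⟩
  rintro _ ⟨a, ha, rfl⟩ _ ⟨b, hb, rfl⟩
  obtain ⟨c, hc, hac, hbc⟩ := h.2 a ha b hb
  exact ⟨f c, mem_image_of_mem f hc, le_map hf hac, le_map hf hbc⟩

lemma DLim.image {Y : Type v} [TopologicalSpace Y] {f : X → Y} (hf : Continuous f)
    {D : Set X} {s : X} (h : DLim D s) : DLim (f '' D) (f s) := by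
  constructor
  · rintro _ ⟨a, ha, rfl⟩
    exact le_map hf (h.1 a ha)
  · intro U hU hs
    obtain ⟨a, haD, haU⟩ := h.2 _ (hU.preimage hf) hs
    exact ⟨f a, mem_image_of_mem f haD, haU⟩

/-- A set is `d`-closed if it contains all limits of its directed subsets. -/
def DClosed (S : Set X) : Prop :=
  ∀ D : Set X, D ⊆ S → SDirected D → ∀ s, DLim D s → s ∈ S

lemma DClosed.preimage {Y : Type v} [TopologicalSpace Y] {f : X → Y} (hf : Continuous f)
    {S : Set Y} (h : DClosed S) : DClosed (f ⁻¹' S) := fun D hDS hD s hs =>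
  h (f '' D) (image_subset_iff.2 hDS) (hD.image hf) (f s) (hs.image hf)

/-- `μ` has `d`-dense range. -/
def DDense {Y : Type v} (μ : Y → X) : Prop :=
  ∀ S : Set X, DClosed S → (∀ y, μ y ∈ S) → ∀ x, x ∈ S

/-- a `d`-closed subspace of a `d`-space is a `d`-space -/
lemma isDSpace_subtype (h : IsDSpace X) {S : Set X} (hS : DClosed S) : IsDSpace S := by
  rw [isDSpace_iff] at h ⊢
  have := h.1
  refine ⟨inferInstance, fun D hD => ?_⟩
  obtain ⟨s, hs⟩ := h.2 _ (hD.image continuous_subtype_val)
  have hsS : s ∈ S := by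
    refine hS (Subtype.val '' D) ?_ (hD.image continuous_subtype_val) s hs
    rintro _ ⟨a, _, rfl⟩
    exact a.2
  refine ⟨⟨s, hsS⟩, fun a ha => ?_, fun U hU hs' => ?_⟩
  · rw [closure_subtype, image_singleton]
    exact hs.1 _ (mem_image_of_mem _ ha)
  · obtain ⟨V, hV, rfl⟩ := isOpen_induced_iff.1 hU
    obtain ⟨_, ⟨a, ha, rfl⟩, haV⟩ := hs.2 V hV hs'
    exact ⟨a, ha, haV⟩

end basic

/-! ## Characterization of `d`-reflections -/

section char

lemma prop_open {V : Set Prop} (hV : IsOpen V) (h : False ∈ V) : V = univ := by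
  have h1 : V ∈ 𝓝 False := hV.mem_nhds h
  rw [nhds_false] at h1
  exact Filter.mem_top.1 h1

/-- The Sierpinski space, lifted to the universe `u`, is a `d`-space. -/
lemma isDSpace_prop : IsDSpace (ULift.{u} Prop) := by
  rw [isDSpace_iff]
  refine ⟨inferInstance, fun D hD => ?_⟩
  refine ⟨⟨∃ p ∈ D, p.down⟩, ?_, ?_⟩
  · intro a ha
    rw [le_iff]
    intro U hU haU
    obtain ⟨V, hV, rfl⟩ := isOpen_induced_iff.1 hU
    by_cases hp : a.down
    · have h1 : (∃ p ∈ D, p.down) = a.down := by
        apply propext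
        exact ⟨fun _ => hp, fun _ => ⟨a, ha, hp⟩⟩
      change (∃ p ∈ D, p.down) ∈ V
      rw [h1]
      exact haU
    · have h1 : a.down = False := propext ⟨hp, False.elim⟩
      have h2 : False ∈ V := by
        rw [← h1]
        exact haU
      rw [prop_open hV h2]
      trivial
  · intro U hU hs
    obtain ⟨V, hV, rfl⟩ := isOpen_induced_iff.1 hU
    by_cases hp : ∃ p ∈ D, p.down
    · obtain ⟨p, hpD, hp'⟩ := hp
      refine ⟨p, hpD, ?_⟩
      have h1 : (∃ p ∈ D, p.down) = p.down := by
        apply propext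
        exact ⟨fun _ => hp', fun _ => ⟨p, hpD, hp'⟩⟩
      change p.down ∈ V
      rw [← h1]
      exact hs
    · obtain ⟨p, hpD⟩ := hD.1
      refine ⟨p, hpD, ?_⟩
      have h1 : (∃ p ∈ D, p.down) = False := propext ⟨hp, False.elim⟩
      have h2 : False ∈ V := by
        rw [← h1]
        exact hs
      rw [prop_open hV h2]
      trivial

variable {X Y : Type u} [TopologicalSpace X] [TopologicalSpace Y] {μ : X → Y}

lemma IsDReflection.isInducing (h : IsDReflection μ) : IsInducing μ := by
  obtain ⟨_, hc, hu⟩ := h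
  refine ⟨le_antisymm hc.le_induced ?_⟩
  intro U hU
  have hf : Continuous (fun x : X => (⟨x ∈ U⟩ : ULift.{u} Prop)) :=
    continuous_uliftUp.comp (isOpen_iff_continuous_mem.1 hU)
  obtain ⟨g, ⟨hg, hgμ⟩, _⟩ := hu (ULift.{u} Prop) isDSpace_prop _ hf
  refine isOpen_induced_iff.2 ⟨{y | (g y).down}, ?_, ?_⟩
  · exact continuous_Prop.1 (continuous_uliftDown.comp hg)
  · ext x
    have := congrFun hgμ x
    simp only [Function.comp_apply] at this
    simp [this]

lemma IsDReflection.dDense (h : IsDReflection μ) : DDense μ := by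
  obtain ⟨hY, hc, hu⟩ := h
  intro S hS hμ
  have hf : Continuous (fun x : X => (⟨μ x, hμ x⟩ : S)) := by fun_prop
  obtain ⟨g, ⟨hg, hgμ⟩, _⟩ := hu S (isDSpace_subtype hY hS) _ hf
  have h1 : (fun y => (g y : Y)) = id := by
    refine (hu Y hY μ hc).unique ⟨by fun_prop, ?_⟩ ⟨continuous_id, rfl⟩
    ext x
    have := congrFun hgμ x
    simp only [Function.comp_apply] at this
    simp [this]
  intro y
  have h2 := congrFun h1 y
  simp only [id] at h2
  rw [← h2]
  exact (g y).2

end char

section char2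

variable {X : Type u} {Y : Type v} [TopologicalSpace X] [TopologicalSpace Y] {μ : X → Y}

/-- The factorization property of a `d`-dense inducing map into a `d`-space. -/
lemma existsUnique_lift (hY : IsDSpace Y) (hi : IsInducing μ) (hd : DDense μ)
    (Z : Type w) [TopologicalSpace Z] (hZ : IsDSpace Z) (f : X → Z) (hf : Continuous f) :
    ∃! g : Y → Z, Continuous g ∧ g ∘ μ = f := by
  have hZ0 := hZ.1
  rw [isDSpace_iff] at hY hZ
  have hY0 := hY.1
  -- an open set `W V` of `Y` with preimage `f ⁻¹' V`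
  have hW : ∀ V : Set Z, ∃ W : Set Y, IsOpen V → IsOpen W ∧ μ ⁻¹' W = f ⁻¹' V := by
    intro V
    by_cases hV : IsOpen V
    · obtain ⟨W, hW, h⟩ := hi.isOpen_iff.1 (hV.preimage hf)
      exact ⟨W, fun _ => ⟨hW, h⟩⟩
    · exact ⟨∅, fun h => absurd h hV⟩
  choose W hW using hW
  have hex : ∀ y : Y, ∃ z : Z, ∀ V : Set Z, IsOpen V → (y ∈ W V ↔ z ∈ V) := by
    refine hd {y | ∃ z : Z, ∀ V : Set Z, IsOpen V → (y ∈ W V ↔ z ∈ V)} ?_ ?_
    · intro D hDS hD s hs
      have hDS' : ∀ d : D, ∃ z : Z, ∀ V : Set Z, IsOpen V → (d.1 ∈ W V ↔ z ∈ V) :=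
        fun d => hDS d.2
      choose z hz using hDS'
      have hdir : SDirected (range z) := by
        obtain ⟨d, hdD⟩ := hD.1
        refine ⟨⟨z ⟨d, hdD⟩, mem_range_self _⟩, ?_⟩
        rintro _ ⟨a, rfl⟩ _ ⟨b, rfl⟩
        obtain ⟨c, hc, hac, hbc⟩ := hD.2 a a.2 b b.2
        refine ⟨z ⟨c, hc⟩, mem_range_self _, le_iff.2 fun V hV ha => ?_,
          le_iff.2 fun V hV hb => ?_⟩
        · rw [← hz _ V hV] at ha ⊢
          exact le_iff.1 hac _ (hW V hV).1 ha
        · rw [← hz _ V hV] at hb ⊢
          exact le_iff.1 hbc _ (hW V hV).1 hb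
      obtain ⟨t, ht⟩ := hZ.2 _ hdir
      refine ⟨t, fun V hV => ?_⟩
      rw [mem_iff_of_dLim hs (hW V hV).1, mem_iff_of_dLim ht hV]
      constructor
      · rintro ⟨d, hdD, hdW⟩
        exact ⟨z ⟨d, hdD⟩, mem_range_self _, (hz ⟨d, hdD⟩ V hV).1 hdW⟩
      · rintro ⟨_, ⟨d, rfl⟩, hdV⟩
        exact ⟨d, d.2, (hz d V hV).2 hdV⟩
    · intro x
      refine ⟨f x, fun V hV => ?_⟩
      have := (hW V hV).2
      exact Set.ext_iff.1 this x
  choose g hg using hex
  refine ⟨g, ⟨⟨fun V hV => ?_⟩, ?_⟩, ?_⟩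
  · have : g ⁻¹' V = W V := by
      ext y
      exact (hg y V hV).symm
    rw [this]
    exact (hW V hV).1
  · ext x
    apply Inseparable.eq
    rw [inseparable_iff_forall_isOpen]
    intro V hV
    simp only [Function.comp_apply]
    rw [← hg _ V hV]
    exact Set.ext_iff.1 (hW V hV).2 x
  · rintro g' ⟨hg'c, hg'⟩
    ext y
    apply Inseparable.eq
    rw [inseparable_iff_forall_isOpen]
    intro V hV
    rw [← hg _ V hV]
    refine hd {y | g' y ∈ V ↔ y ∈ W V} ?_ ?_ y
    · intro D hDS hD s hs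
      have h1 := mem_iff_of_dLim (hs.image hg'c) hV
      change g' s ∈ V ↔ s ∈ W V
      rw [h1, mem_iff_of_dLim hs (hW V hV).1]
      constructor
      · rintro ⟨_, ⟨d, hdD, rfl⟩, hdV⟩
        exact ⟨d, hdD, (hDS hdD).1 hdV⟩
      · rintro ⟨d, hdD, hdW⟩
        exact ⟨g' d, mem_image_of_mem _ hdD, (hDS hdD).2 hdW⟩
    · intro x
      change g' (μ x) ∈ V ↔ μ x ∈ W V
      have h1 : g' (μ x) = f x := congrFun hg' x
      rw [h1]
      exact (Set.ext_iff.1 (hW V hV).2 x).symm

end char2

/-! ## Products -/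

section pi

lemma pi_le {I : Type v} {Y : I → Type u} [∀ i, TopologicalSpace (Y i)] {a b : ∀ i, Y i} : a ∈ closure {b} ↔ ∀ i, a i ∈ closure {b i} := by
  constructor
  · intro h i
    exact le_map (continuous_apply i) h
  · intro h
    have := closure_pi_set (univ : Set I) (fun i => ({b i} : Set (Y i)))
    rw [univ_pi_singleton] at this
    rw [this]
    exact fun i _ => h i

lemma dLim_pi {I : Type v} {Y : I → Type u} [∀ i, TopologicalSpace (Y i)] {D : Set (∀ i, Y i)} (hD : SDirected D) {s : ∀ i, Y i}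
    (h : ∀ i, DLim ((fun y : ∀ i, Y i => y i) '' D) (s i)) : DLim D s := by
  constructor
  · intro a ha
    rw [pi_le]
    intro i
    exact (h i).1 _ (mem_image_of_mem _ ha)
  · intro U hU hs
    obtain ⟨F, V, hV, hVU⟩ := isOpen_pi_iff.1 hU s hs
    -- find an element of `D` in the box over the finite set `F`
    have key : ∀ F : Finset I, (∀ i ∈ F, IsOpen (V i) ∧ s i ∈ V i) →
        ∃ d ∈ D, ∀ i ∈ F, d i ∈ V i := by
      intro F
      induction F using Finset.cons_induction with
      | empty =>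
        intro _
        obtain ⟨d, hd⟩ := hD.1
        exact ⟨d, hd, by simp⟩
      | cons i F hi ih =>
        intro hF
        obtain ⟨d, hd, hdF⟩ := ih fun j hj => hF j (Finset.mem_cons_of_mem hj)
        obtain ⟨hVi, hsi⟩ := hF i (Finset.mem_cons_self i F)
        obtain ⟨_, ⟨e, he, rfl⟩, hei⟩ := (h i).2 _ hVi hsi
        obtain ⟨c, hc, hdc, hec⟩ := hD.2 d hd e he
        refine ⟨c, hc, fun j hj => ?_⟩
        rcases Finset.mem_cons.1 hj with rfl | hj'
        · exact le_iff.1 (pi_le.1 hec j) _ hVi hei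
        · exact le_iff.1 (pi_le.1 hdc j) _ (hF j hj).1 (hdF j hj')
    obtain ⟨d, hd, hdF⟩ := key F hV
    exact ⟨d, hd, hVU fun i hi => hdF i hi⟩

lemma isDSpace_pi {I : Type v} {Y : I → Type u} [∀ i, TopologicalSpace (Y i)]
    (h : ∀ i, IsDSpace (Y i)) : IsDSpace (∀ i, Y i) := by
  have h' := fun i => isDSpace_iff.1 (h i)
  rw [isDSpace_iff]
  have := fun i => (h' i).1
  refine ⟨inferInstance, fun D hD => ?_⟩
  choose s hs using fun i => (h' i).2 _ (hD.image (continuous_apply i))
  exact ⟨s, dLim_pi hD hs⟩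

/-- in a space with a `d`-dense map, every point is above a value of the map -/
lemma exists_le_of_dDense {X : Type v} {Y : Type u} [TopologicalSpace Y] {μ : X → Y}
    (hd : DDense μ) (y : Y) : ∃ x, μ x ∈ closure {y} := by
  refine hd {y | ∃ x, μ x ∈ closure {y}} ?_ ?_ y
  · intro D hDS hD s hs
    obtain ⟨d, hdD⟩ := hD.1
    obtain ⟨x, hx⟩ := hDS hdD
    exact ⟨x, le_iff.2 fun U hU h => le_iff.1 (hs.1 d hdD) U hU (le_iff.1 hx U hU h)⟩
  · intro x
    exact ⟨x, subset_closure rfl⟩

open Classical in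
/-- **Key step.** The product of maps with `d`-dense range has `d`-dense range. -/
lemma dDense_pi {I : Type v} {X Y : I → Type u} [∀ i, TopologicalSpace (Y i)]
    {μ : ∀ i, X i → Y i} (hd : ∀ i, DDense (μ i)) :
    DDense (fun (x : ∀ i, X i) i => μ i (x i)) := by
  intro S hS hμ y
  choose a ha using fun i => exists_le_of_dDense (hd i) (y i)
  -- finite modifications
  have hfin : ∀ F : Finset I, ∀ (b : ∀ i, X i) (z : ∀ i, Y i),
      (fun i => if i ∈ F then z i else μ i (b i)) ∈ S := by
    intro F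
    induction F using Finset.cons_induction with
    | empty =>
      intro b z
      simpa using hμ b
    | cons k F hk ih =>
      intro b z
      have hc : Continuous (fun t : Y k => Function.update
          (fun i => if i ∈ Finset.cons k F hk then z i else μ i (b i)) k t) :=
        continuous_const.update k continuous_id
      have h1 := hd k _ (hS.preimage hc) (fun x => by
        have h2 := ih (Function.update b k x) z
        change Function.update _ k (μ k x) ∈ S
        convert h2 using 1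
        ext i
        by_cases hik : i = k
        · subst hik
          simp [hk]
        · simp [hik])
      have h3 := h1 (z k)
      change Function.update _ k (z k) ∈ S at h3
      convert h3 using 1
      ext i
      by_cases hik : i = k
      · subst hik
        simp
      · simp [hik]
  -- the directed family
  refine hS (range fun F : Finset I => fun i => if i ∈ F then y i else μ i (a i)) ?_ ?_ y ?_
  · rintro _ ⟨F, rfl⟩
    exact hfin F a y
  · refine ⟨range_nonempty _, ?_⟩
    have hmono : ∀ F G : Finset I, F ⊆ G →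
        (fun i => if i ∈ F then y i else μ i (a i)) ∈
          closure {fun i => if i ∈ G then y i else μ i (a i)} := by
      intro F G hFG
      rw [pi_le]
      intro i
      by_cases hF : i ∈ F
      · simp only [hF, hFG hF, if_true]
        exact subset_closure rfl
      · by_cases hG : i ∈ G
        · simp only [hF, hG, if_true, if_false]
          exact ha i
        · simp only [hF, hG, if_false]
          exact subset_closure rfl
    rintro _ ⟨F, rfl⟩ _ ⟨G, rfl⟩
    exact ⟨_, ⟨F ∪ G, rfl⟩, hmono _ _ Finset.subset_union_left,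
      hmono _ _ Finset.subset_union_right⟩
  · constructor
    · rintro _ ⟨F, rfl⟩
      rw [pi_le]
      intro i
      by_cases hF : i ∈ F
      · simp only [hF, if_true]
        exact subset_closure rfl
      · simp only [hF, if_false]
        exact ha i
    · intro U hU hy
      obtain ⟨F, V, hV, hVU⟩ := isOpen_pi_iff.1 hU y hy
      refine ⟨_, ⟨F, rfl⟩, hVU fun i hi => ?_⟩
      have hi' : i ∈ F := hi
      simp only [hi', if_true]
      exact (hV i hi').2

end pi

/-- **The product of `d`-reflections is a `d`-reflection of the product.** -/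
theorem isDReflection_pi {I : Type v} {X Y : I → Type u} [∀ i, TopologicalSpace (X i)]
    [∀ i, TopologicalSpace (Y i)] {μ : ∀ i, X i → Y i} (h : ∀ i, IsDReflection (μ i)) :
    IsDReflection (fun (x : ∀ i, X i) i => μ i (x i)) := by
  have hY : IsDSpace (∀ i, Y i) := isDSpace_pi fun i => (h i).1
  have hi : IsInducing (fun (x : ∀ i, X i) i => μ i (x i)) :=
    IsInducing.piMap fun i => (h i).isInducing
  exact ⟨hY, hi.continuous, fun Z _ hZ f hf =>
    existsUnique_lift hY hi (dDense_pi fun i => (h i).dDense) Z hZ f hf⟩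

/-- two `d`-reflections of a space are homeomorphic -/
lemma IsDReflection.homeomorph {X Y R : Type u} [TopologicalSpace X] [TopologicalSpace Y]
    [TopologicalSpace R] {μ : X → Y} {ρ : X → R} (hμ : IsDReflection μ) (hρ : IsDReflection ρ) :
    ∃ e : R ≃ₜ Y, ∀ x, e (ρ x) = μ x := by
  obtain ⟨hY, hμc, hμu⟩ := hμ
  obtain ⟨hR, hρc, hρu⟩ := hρ
  obtain ⟨g, ⟨hg, hgρ⟩, _⟩ := hρu Y hY μ hμc
  obtain ⟨k, ⟨hk, hkμ⟩, _⟩ := hμu R hR ρ hρc
  have h1 : k ∘ g = id := (hρu R hR ρ hρc).unique
    ⟨hk.comp hg, by rw [Function.comp_assoc, hgρ, hkμ]⟩ ⟨continuous_id, rfl⟩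
  have h2 : g ∘ k = id := (hμu Y hY μ hμc).unique
    ⟨hg.comp hk, by rw [Function.comp_assoc, hkμ, hgρ]⟩ ⟨continuous_id, rfl⟩
  exact ⟨⟨⟨g, k, fun x => congrFun h1 x, fun y => congrFun h2 y⟩, hg, hk⟩,
    fun x => congrFun hgρ x⟩

/-! ## Existence of `d`-reflections (known; recorded so that the main theorem is not vacuous) -/

/-- the smallest `d`-closed set containing a set -/
def dClosure {X : Type u} [TopologicalSpace X] (A : Set X) : Set X :=
  {x | ∀ S : Set X, DClosed S → A ⊆ S → x ∈ S}

lemma dClosed_dClosure {X : Type u} [TopologicalSpace X] (A : Set X) :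
    DClosed (dClosure A) := fun D hD hdir s hs S hS hA =>
  hS D (fun d hd => hD hd S hS hA) hdir s hs

/-- Every space has a `d`-reflection. -/
theorem exists_isDReflection (X : Type u) [TopologicalSpace X] :
    ∃ (Y : Type u) (_ : TopologicalSpace Y) (μ : X → Y), IsDReflection μ := by
  let P := (∀ _ : {U : Set X // IsOpen U}, ULift.{u} Prop)
  let e : X → P := fun x U => ⟨x ∈ U.1⟩
  have hP : IsDSpace P := isDSpace_pi fun _ => isDSpace_prop
  have he : IsInducing e := by
    refine ⟨le_antisymm ?_ ?_⟩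
    · refine Continuous.le_induced ?_
      refine continuous_pi fun U => ?_
      exact continuous_uliftUp.comp (isOpen_iff_continuous_mem.1 U.2)
    · intro U hU
      refine isOpen_induced_iff.2 ⟨{p | (p ⟨U, hU⟩).down}, ?_, rfl⟩
      exact continuous_Prop.1 (continuous_uliftDown.comp (continuous_apply _))
  let S : Set P := dClosure (range e)
  have hS : DClosed S := dClosed_dClosure _
  have heS : ∀ x, e x ∈ S := fun x T _ hT => hT (mem_range_self x)
  have hSd : IsDSpace S := isDSpace_subtype hP hS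
  have hμi : IsInducing (fun x => (⟨e x, heS x⟩ : S)) := by
    exact (IsInducing.subtypeVal (t := S)).of_comp_iff.1 he
  have hμd : DDense (fun x => (⟨e x, heS x⟩ : S)) := by
    intro T hT hx y
    -- the image of `T` in `P` is `d`-closed
    have h1 : DClosed (Subtype.val '' T : Set P) := by
      intro D hDT hD s hs
      have hDS : D ⊆ S := fun d hd => by
        obtain ⟨t, _, rfl⟩ := hDT hd
        exact t.2
      have hsS : s ∈ S := hS D hDS hD s hs
      have hle : ∀ a b : S, a.1 ∈ closure {b.1} → a ∈ closure {b} := by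
        intro a b hab
        rw [closure_subtype, image_singleton]
        exact hab
      refine ⟨⟨s, hsS⟩, ?_, rfl⟩
      refine hT (Subtype.val ⁻¹' D) ?_ ?_ _ ?_
      · intro d hd
        obtain ⟨t, ht, htd⟩ := hDT hd
        have : t = d := Subtype.ext htd
        exact this ▸ ht
      · obtain ⟨d, hd⟩ := hD.1
        refine ⟨⟨⟨d, hDS hd⟩, hd⟩, ?_⟩
        intro a ha b hb
        obtain ⟨c, hc, hac, hbc⟩ := hD.2 a.1 ha b.1 hb
        exact ⟨⟨c, hDS hc⟩, hc, hle _ _ hac, hle _ _ hbc⟩
      · refine ⟨fun a ha => hle _ _ (hs.1 a.1 ha), fun U hU hsU => ?_⟩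
        obtain ⟨V, hV, rfl⟩ := isOpen_induced_iff.1 hU
        obtain ⟨d, hd, hdV⟩ := hs.2 V hV hsU
        exact ⟨⟨d, hDS hd⟩, hd, hdV⟩
    obtain ⟨t, ht, hty⟩ := y.2 _ h1 (by
      rintro _ ⟨x, rfl⟩
      exact ⟨_, hx x, rfl⟩)
    have : t = y := Subtype.ext hty
    exact this ▸ ht
  exact ⟨S, inferInstance, _, hSd, hμi.continuous, fun Z _ hZ f hf =>
    existsUnique_lift hSd hμi hμd Z hZ f hf⟩

/-- **The `d`-reflection functor preserves arbitrary products of `T₀` spaces.** For every family
`X i` (`i ∈ I`, any index set) of `T₀` spaces with `d`-reflections `μ i : X i → Y i`, the product map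
`∏ X i → ∏ Y i` is a `d`-reflection of `∏ X i`; and for every `d`-reflection `ρ : ∏ X i → R` of the
product there is a homeomorphism of `R` onto `∏ Y i` which carries `ρ` to the product map. -/
theorem result {I : Type v} (X Y : I → Type u) [∀ i, TopologicalSpace (X i)]
    [∀ i, T0Space (X i)] [∀ i, TopologicalSpace (Y i)] (μ : ∀ i, X i → Y i)
    (hμ : ∀ i, IsDReflection (μ i)) :
    IsDReflection (fun (x : ∀ i, X i) i => μ i (x i)) ∧
      ∀ (R : Type (max u v)) [TopologicalSpace R] (ρ : (∀ i, X i) → R), IsDReflection ρ →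
        ∃ e : R ≃ₜ ∀ i, Y i, ∀ x : ∀ i, X i, e (ρ x) = fun i => μ i (x i) :=
  ⟨isDReflection_pi hμ, fun _ _ _ hρ => (isDReflection_pi hμ).homeomorph hρ⟩

end Pool.Agent.Results.MP_c8df5e_gt.ProductReflection
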